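import Mathlib

/-!
The logics `GL.3` and `Grz.3` do not have the Lyndon positivity property.
-/

set_option autoImplicit false

namespace Pool.Agent.Results.MP_4f615a_lc.NoLyndonPositivity

/-- Modal formulas in negation normal form; `pos n` and `neg n` are the literals of the variable
with number `n`. -/
inductive Fm : Type
  | pos (n : ℕ) : Fm
  | neg (n : ℕ) : Fm
  | bot : Fm
  | top : Fm
  | and (a b : Fm) : Fm
  | or (a b : Fm) : Fm
  | dia (a : Fm) : Fm
  | box (a : Fm) : Fm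

namespace Fm

/-- the negation of a formula -/
def not : Fm → Fm
  | pos n => neg n
  | neg n => pos n
  | bot => top
  | top => bot
  | and a b => or a.not b.not
  | or a b => and a.not b.not
  | dia a => box a.not
  | box a => dia a.not

/-- the formula `a ↔ b` -/
def iff (a b : Fm) : Fm := and (or a.not b) (or b.not a)

/-- the variables of a formula -/
def vars : Fm → Finset ℕ
  | pos n => {n}
  | neg n => {n}
  | bot => ∅
  | top => ∅
  | and a b => a.vars ∪ b.vars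
  | or a b => a.vars ∪ b.vars
  | dia a => a.vars
  | box a => a.vars

/-- no negative literal of a variable from `P` occurs in the formula -/
def Positive (P : Finset ℕ) : Fm → Prop
  | pos _ => True
  | neg n => n ∉ P
  | bot => True
  | top => True
  | and a b => a.Positive P ∧ b.Positive P
  | or a b => a.Positive P ∧ b.Positive P
  | dia a => a.Positive P
  | box a => a.Positive P

end Fm

/-- Modal algebras. -/
structure MAlg where
  A : Type
  ba : BooleanAlgebra A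
  dia : A → A
  dia_bot : dia ⊥ = ⊥
  dia_sup : ∀ a b, dia (a ⊔ b) = dia a ⊔ dia b

attribute [instance] MAlg.ba

/-- The value of a formula under a valuation. -/
def MAlg.val (𝔄 : MAlg) (ϑ : ℕ → 𝔄.A) : Fm → 𝔄.A
  | .pos n => ϑ n
  | .neg n => (ϑ n)ᶜ
  | .bot => ⊥
  | .top => ⊤
  | .and a b => 𝔄.val ϑ a ⊓ 𝔄.val ϑ b
  | .or a b => 𝔄.val ϑ a ⊔ 𝔄.val ϑ b
  | .dia a => 𝔄.dia (𝔄.val ϑ a)
  | .box a => (𝔄.dia (𝔄.val ϑ a)ᶜ)ᶜ

/-- The algebra validates the logic (a set of formulas). -/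
def MAlg.Validates (𝔄 : MAlg) (Λ : Set Fm) : Prop := ∀ φ ∈ Λ, ∀ ϑ, 𝔄.val ϑ φ = ⊤

/-- The formula is `P`-monotone in the logic `Λ`. -/
def Monotone (Λ : Set Fm) (P : Finset ℕ) (φ : Fm) : Prop :=
  ∀ 𝔄 : MAlg, 𝔄.Validates Λ → ∀ ϑ₁ ϑ₂ : ℕ → 𝔄.A, (∀ n, n ∉ P → ϑ₁ n = ϑ₂ n) →
    (∀ n ∈ P, ϑ₁ n ≤ ϑ₂ n) → 𝔄.val ϑ₁ φ ≤ 𝔄.val ϑ₂ φ

/-- The Lyndon positivity property: for all disjoint finite sets `P`, `R` of variables, every
formula `φ` with variables from `P ∪ R` which is `P`-monotone in `Λ` is `Λ`-equivalent to a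
`P`-positive formula `α` with variables from `P ∪ R`. -/
def LPP (Λ : Set Fm) : Prop :=
  ∀ P R : Finset ℕ, Disjoint P R → ∀ φ : Fm, φ.vars ⊆ P ∪ R → Monotone Λ P φ →
    ∃ α : Fm, α.vars ⊆ P ∪ R ∧ α.Positive P ∧ φ.iff α ∈ Λ

/-- Truth at a point of a Kripke frame with accessibility relation `r` under a valuation. -/
def Sat {X : Type} (r : X → X → Prop) (V : ℕ → X → Prop) : X → Fm → Prop
  | x, .pos n => V n x
  | x, .neg n => ¬ V n x
  | _, .bot => False
  | _, .top => True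
  | x, .and a b => Sat r V x a ∧ Sat r V x b
  | x, .or a b => Sat r V x a ∨ Sat r V x b
  | x, .dia a => ∃ y, r x y ∧ Sat r V y a
  | x, .box a => ∀ y, r x y → Sat r V y a

/-- `GL.3`: the logic of all finite strict linear orders. -/
def GL3 : Set Fm := {φ | ∀ (X : Type) [Fintype X] [LinearOrder X] (V : ℕ → X → Prop) (x : X),
  Sat (· < ·) V x φ}

/-- `Grz.3`: the logic of all finite reflexive linear orders. -/
def Grz3 : Set Fm := {φ | ∀ (X : Type) [Fintype X] [LinearOrder X] (V : ℕ → X → Prop) (x : X),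
  Sat (· ≤ ·) V x φ}

/-- `K4.3`: the logic of all transitive weakly connected Kripke frames. -/
def K43 : Set Fm := {φ | ∀ (X : Type) (r : X → X → Prop),
  (∀ x y z, r x y → r y z → r x z) → (∀ x y z, r x y → r x z → r y z ∨ y = z ∨ r z y) →
  ∀ (V : ℕ → X → Prop) (x : X), Sat r V x φ}

/-! ### the formula -/

/-- the formula, with the formulas `q`, `q'` in place of the literals of the variable `0` -/
def Phi (q q' : Fm) : Fm :=
  .or (.dia (.and q (.and (.pos 1) (.dia (.and (.neg 1) (.dia (.and q (.pos 1))))))))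
    (.and (.dia (.and q (.pos 1)))
      (.box (.or (.neg 1) (.box (.or (.pos 1) (.box (.or (.neg 1) q')))))))

/-- the formula `φ(p, r)` -/
def phi : Fm := Phi (.pos 0) (.neg 0)

/-- the formula `φ(p ∨ q, r)` -/
def phi' : Fm := Phi (.or (.pos 0) (.pos 2)) (.and (.neg 0) (.neg 2))

theorem sat_not {X : Type} (r : X → X → Prop) (V : ℕ → X → Prop) (φ : Fm) :
    ∀ x, Sat r V x φ.not ↔ ¬ Sat r V x φ := by
  induction φ with
  | pos n => intro x; exact Iff.rfl
  | neg n => intro x; simp [Fm.not, Sat]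
  | bot => intro x; simp [Fm.not, Sat]
  | top => intro x; simp [Fm.not, Sat]
  | and a b iha ihb => intro x; simp only [Fm.not, Sat, iha, ihb]; tauto
  | or a b iha ihb => intro x; simp only [Fm.not, Sat, iha, ihb]; tauto
  | dia a iha => intro x; simp only [Fm.not, Sat, iha]; push Not; exact Iff.rfl
  | box a iha => intro x; simp only [Fm.not, Sat, iha]; push Not; exact Iff.rfl

theorem val_not (𝔄 : MAlg) (ϑ : ℕ → 𝔄.A) (φ : Fm) : 𝔄.val ϑ φ.not = (𝔄.val ϑ φ)ᶜ := by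
  induction φ with
  | pos n => rfl
  | neg n => simp [Fm.not, MAlg.val]
  | bot => simp [Fm.not, MAlg.val]
  | top => simp [Fm.not, MAlg.val]
  | and a b iha ihb => simp [Fm.not, MAlg.val, iha, ihb]
  | or a b iha ihb => simp [Fm.not, MAlg.val, iha, ihb]
  | dia a iha => simp [Fm.not, MAlg.val, iha]
  | box a iha => simp [Fm.not, MAlg.val, iha]

/-- the monotonicity of `φ` is a theorem of `K4.3` -/
theorem imp_mem_K43 : Fm.or phi.not phi' ∈ K43 := by
  intro X r htr hwc V x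
  show Sat r V x phi.not ∨ Sat r V x phi'
  rw [sat_not]
  by_cases h : Sat r V x phi
  · right
    rcases h with ⟨y, hxy, hy0, hy1, z, hyz, hz1, u, hzu, hu0, hu1⟩ | ⟨⟨y, hxy, hy0, hy1⟩, hB⟩
    · exact Or.inl ⟨y, hxy, Or.inl hy0, hy1, z, hyz, hz1, u, hzu, Or.inl hu0, hu1⟩
    · by_cases h2 : ∀ a, r x a → (¬ V 1 a ∨ ∀ b, r a b → (V 1 b ∨ ∀ c, r b c →
          (¬ V 1 c ∨ (¬ V 0 c ∧ ¬ V 2 c))))
      · exact Or.inr ⟨⟨y, hxy, Or.inl hy0, hy1⟩, h2⟩
      · left
        push Not at h2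
        obtain ⟨a, hxa, ha1, b, hab, hb1, c, hbc, hc1, hc⟩ := h2
        have hxb := htr _ _ _ hxa hab
        rcases hwc x y b hxy hxb with h3 | h3 | h3
        · refine ⟨y, hxy, Or.inl hy0, hy1, b, h3, hb1, c, hbc, ?_, hc1⟩
          by_cases h4 : V 0 c
          · exact Or.inl h4
          · exact Or.inr (hc h4)
        · exact absurd (h3 ▸ hy1) hb1
        · exfalso
          rcases hB a hxa with h4 | h4
          · exact h4 ha1
          · rcases h4 b hab with h5 | h5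
            · exact hb1 h5
            · rcases h5 y h3 with h6 | h6
              · exact h6 hy1
              · exact h6 hy0
  · left
    exact h

theorem phi_monotone {Λ : Set Fm} (hΛ : K43 ⊆ Λ) : Monotone Λ {0} phi := by
  intro 𝔄 h𝔄 ϑ₁ ϑ₂ h1 h2
  let ϑ : ℕ → 𝔄.A := fun n => if n = 2 then ϑ₂ 0 else ϑ₁ n
  have h := h𝔄 _ (hΛ imp_mem_K43) ϑ
  have hr : ϑ₁ 1 = ϑ₂ 1 := h1 1 (by decide)
  have hp : ϑ₁ 0 ≤ ϑ₂ 0 := h2 0 (by decide)
  have e1 : 𝔄.val ϑ phi = 𝔄.val ϑ₁ phi := rfl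
  have e0 : ϑ₁ 0 ⊔ ϑ₂ 0 = ϑ₂ 0 := sup_eq_right.mpr hp
  have e0' : (ϑ₁ 0)ᶜ ⊓ (ϑ₂ 0)ᶜ = (ϑ₂ 0)ᶜ := by rw [← compl_sup, e0]
  have e2 : 𝔄.val ϑ phi' = 𝔄.val ϑ₂ phi := by
    have v0 : ϑ 0 = ϑ₁ 0 := rfl
    have v1 : ϑ 1 = ϑ₂ 1 := hr
    have v2 : ϑ 2 = ϑ₂ 0 := rfl
    simp only [phi, phi', Phi, MAlg.val, v0, v1, v2, e0, e0']
  have e3 : (𝔄.val ϑ phi)ᶜ ⊔ 𝔄.val ϑ phi' = ⊤ := by
    rw [← val_not]
    exact h
  rw [e1, e2] at e3
  rw [← himp_eq_top_iff, himp_eq, sup_comm]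
  exact e3

/-! ### the models -/

/-- accessibility on the natural numbers: the future of a point consists of the smaller points -/
def suc (b : Bool) (h j : ℕ) : Prop := j < h ∨ (b = true ∧ j = h)

/-- the valuation: `p` is true at `c` only, `r` is true at the even numbers -/
def val (c : ℕ) (n h : ℕ) : Prop := (n = 0 ∧ h = c) ∨ (n = 1 ∧ h % 2 = 0)

/-- the modal depth -/
def depth : Fm → ℕ
  | .pos _ => 0
  | .neg _ => 0
  | .bot => 0
  | .top => 0
  | .and a b => max (depth a) (depth b)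
  | .or a b => max (depth a) (depth b)
  | .dia a => depth a + 1
  | .box a => depth a + 1

/-- indistinguishable heights -/
def E (n h h' : ℕ) : Prop := h = h' ∨ (h % 2 = h' % 2 ∧ 2 * n ≤ h ∧ 2 * n ≤ h')

/-- the simulation -/
def Z (n c h c' h' : ℕ) : Prop :=
  (h < c ∧ E n h h') ∨ (h = c ∧ h' = c' ∧ E n h h') ∨
    (h = h' ∧ ∃ k, n < k ∧ h = 2 * k + 1 ∧ c = 2 * k ∧ c' = 2 * (k - 1))

theorem E_succ {n h h' : ℕ} (H : E (n + 1) h h') : E n h h' := by
  unfold E at *; omega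

theorem Z_succ {n c h c' h' : ℕ} (H : Z (n + 1) c h c' h') : Z n c h c' h' := by
  rcases H with ⟨h1, h2⟩ | ⟨h1, h2, h3⟩ | ⟨h1, k, h2, h3⟩
  · exact Or.inl ⟨h1, E_succ h2⟩
  · exact Or.inr (Or.inl ⟨h1, h2, E_succ h3⟩)
  · exact Or.inr (Or.inr ⟨h1, k, by omega, h3⟩)

theorem Z_mono {n m c h c' h' : ℕ} (hnm : n ≤ m) (H : Z m c h c' h') : Z n c h c' h' := by
  induction hnm with
  | refl => exact H
  | step _ ih => exact ih (Z_succ H)

theorem E_forth {n h h' j : ℕ} (H : E (n + 1) h h') (hj : j < h) : ∃ j', j' < h' ∧ E n j j' := by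
  unfold E at *
  by_cases h1 : j < h'
  · exact ⟨j, h1, Or.inl rfl⟩
  · rcases H with H | ⟨h2, h3, h4⟩
    · omega
    · by_cases h5 : (h' - 1) % 2 = j % 2
      · exact ⟨h' - 1, by omega, Or.inr ⟨by omega, by omega, by omega⟩⟩
      · exact ⟨h' - 2, by omega, Or.inr ⟨by omega, by omega, by omega⟩⟩

theorem E_symm {n h h' : ℕ} (H : E n h h') : E n h' h := by
  unfold E at *; omega

theorem forth {b : Bool} {n c h c' h' j : ℕ} (H : Z (n + 1) c h c' h') (hj : suc b h j) :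
    ∃ j', suc b h' j' ∧ Z n c j c' j' := by
  rcases hj with hj | ⟨hb, rfl⟩
  · rcases H with ⟨h1, h2⟩ | ⟨h1, h2, h3⟩ | ⟨h1, k, h2, h3, h4, h5⟩
    · obtain ⟨j', h4, h5⟩ := E_forth h2 hj
      exact ⟨j', Or.inl h4, Or.inl ⟨by omega, h5⟩⟩
    · obtain ⟨j', h4, h5⟩ := E_forth h3 hj
      exact ⟨j', Or.inl h4, Or.inl ⟨by omega, h5⟩⟩
    · by_cases h6 : j = c
      · refine ⟨c', Or.inl (by omega), Or.inr (Or.inl ⟨h6, rfl, ?_⟩)⟩
        unfold E; omega
      · exact ⟨j, Or.inl (by omega), Or.inl ⟨by omega, Or.inl rfl⟩⟩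
  · exact ⟨h', Or.inr ⟨hb, rfl⟩, Z_succ H⟩

theorem back {b : Bool} {n c h c' h' j' : ℕ} (H : Z (n + 1) c h c' h') (hj : suc b h' j') :
    ∃ j, suc b h j ∧ Z n c j c' j' := by
  rcases hj with hj | ⟨hb, rfl⟩
  · rcases H with ⟨h1, h2⟩ | ⟨h1, h2, h3⟩ | ⟨h1, k, h2, h3, h4, h5⟩
    · obtain ⟨j, h4, h5⟩ := E_forth (E_symm h2) hj
      exact ⟨j, Or.inl h4, Or.inl ⟨by omega, E_symm h5⟩⟩
    · obtain ⟨j, h4, h5⟩ := E_forth (E_symm h3) hj
      exact ⟨j, Or.inl h4, Or.inl ⟨by omega, E_symm h5⟩⟩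
    · by_cases h6 : j' = c
      · refine ⟨c', Or.inl (by omega), Or.inl ⟨by omega, ?_⟩⟩
        unfold E; omega
      · exact ⟨j', Or.inl (by omega), Or.inl ⟨by omega, Or.inl rfl⟩⟩
  · exact ⟨h, Or.inr ⟨hb, rfl⟩, Z_succ H⟩

theorem Z_val {n c h c' h' : ℕ} (H : Z n c h c' h') :
    (∀ i, val c i h → val c' i h') ∧ (∀ i, i ≠ 0 → val c' i h' → val c i h) := by
  have hpar : h % 2 = h' % 2 := by
    rcases H with ⟨_, h2⟩ | ⟨_, _, h2⟩ | ⟨h1, _⟩
    · unfold E at h2; omega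
    · unfold E at h2; omega
    · omega
  have hp : h = c → h' = c' := by
    intro h0
    rcases H with ⟨h1, _⟩ | ⟨_, h2, _⟩ | ⟨_, k, h2, h3, h4, h5⟩
    · omega
    · exact h2
    · omega
  constructor
  · rintro i (⟨h1, h2⟩ | ⟨h1, h2⟩)
    · exact Or.inl ⟨h1, hp h2⟩
    · exact Or.inr ⟨h1, by omega⟩
  · rintro i hi (⟨h1, h2⟩ | ⟨h1, h2⟩)
    · exact absurd h1 hi
    · exact Or.inr ⟨h1, by omega⟩

/-- positive formulas are preserved by the simulation -/
theorem preserve (b : Bool) (α : Fm) (hα : α.Positive {0}) : ∀ (c h c' h' : ℕ),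
    Z (depth α) c h c' h' → Sat (suc b) (val c) h α → Sat (suc b) (val c') h' α := by
  induction α with
  | pos i => intro c h c' h' H hs; exact (Z_val H).1 i hs
  | neg i =>
    intro c h c' h' H hs hs'
    have hi : i ≠ 0 := fun h0 => hα (by rw [h0]; decide)
    exact hs ((Z_val H).2 i hi hs')
  | bot => intro c h c' h' H hs; exact hs
  | top => intro c h c' h' H hs; exact hs
  | and a b iha ihb =>
    intro c h c' h' H hs
    exact ⟨iha hα.1 _ _ _ _ (Z_mono (le_max_left _ _) H) hs.1,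
      ihb hα.2 _ _ _ _ (Z_mono (le_max_right _ _) H) hs.2⟩
  | or a b iha ihb =>
    intro c h c' h' H hs
    rcases hs with hs | hs
    · exact Or.inl (iha hα.1 _ _ _ _ (Z_mono (le_max_left _ _) H) hs)
    · exact Or.inr (ihb hα.2 _ _ _ _ (Z_mono (le_max_right _ _) H) hs)
  | dia a ih =>
    intro c h c' h' H hs
    obtain ⟨j, hj, hs⟩ := hs
    obtain ⟨j', hj', hZ⟩ := forth H hj
    exact ⟨j', hj', ih hα _ _ _ _ hZ hs⟩
  | box a ih =>
    intro c h c' h' H hs j' hj'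
    obtain ⟨j, hj, hZ⟩ := back H hj'
    exact ih hα _ _ _ _ hZ (hs j hj)

theorem phi_true (b : Bool) (k : ℕ) : Sat (suc b) (val (2 * k)) (2 * k + 1) phi := by
  right
  refine ⟨⟨2 * k, Or.inl (by omega), Or.inl ⟨rfl, rfl⟩, Or.inr ⟨rfl, by omega⟩⟩, ?_⟩
  intro j hj
  by_cases h1 : j % 2 = 0
  · right
    intro j2 hj2
    by_cases h2 : j2 % 2 = 0
    · exact Or.inl (Or.inr ⟨rfl, h2⟩)
    · right
      intro j3 hj3
      right
      rintro (⟨_, h3⟩ | ⟨h3, _⟩)
      · unfold suc at hj hj2 hj3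
        omega
      · exact absurd h3 (by omega)
  · left
    rintro (⟨h3, _⟩ | ⟨_, h3⟩)
    · exact absurd h3 (by omega)
    · exact h1 h3

theorem phi_false (b : Bool) (k : ℕ) (hk : 1 ≤ k) :
    ¬ Sat (suc b) (val (2 * (k - 1))) (2 * k + 1) phi := by
  rintro (⟨y, hxy, hy0, hy1, z, hyz, hz1, u, hzu, hu0, hu1⟩ | ⟨_, hB⟩)
  · have h1 : y = 2 * (k - 1) := by
      rcases hy0 with ⟨_, h⟩ | ⟨h, _⟩
      · exact h
      · exact absurd h (by omega)
    have h2 : u = 2 * (k - 1) := by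
      rcases hu0 with ⟨_, h⟩ | ⟨h, _⟩
      · exact h
      · exact absurd h (by omega)
    have h3 : ¬ z % 2 = 0 := fun h => hz1 (Or.inr ⟨rfl, h⟩)
    unfold suc at hyz hzu
    omega
  · rcases hB (2 * k) (Or.inl (by omega)) with h | h
    · exact h (Or.inr ⟨rfl, by omega⟩)
    · rcases h (2 * k - 1) (Or.inl (by omega)) with h | h
      · rcases h with ⟨h, _⟩ | ⟨_, h⟩
        · exact absurd h (by omega)
        · omega
      · rcases h (2 * (k - 1)) (Or.inl (by omega)) with h | h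
        · exact h (Or.inr ⟨rfl, by omega⟩)
        · exact h (Or.inl ⟨rfl, rfl⟩)

/-- passage to finite linear orders -/
theorem sat_fin (b : Bool) (N c : ℕ) (r : Fin (N + 1) → Fin (N + 1) → Prop)
    (hr : ∀ i j, r i j ↔ suc b (N - i.val) (N - j.val)) (φ : Fm) : ∀ i : Fin (N + 1),
    Sat r (fun n i => val c n (N - i.val)) i φ ↔ Sat (suc b) (val c) (N - i.val) φ := by
  have hsurj : ∀ (i : Fin (N + 1)) (j : ℕ), suc b (N - i.val) j →
      ∃ i' : Fin (N + 1), N - i'.val = j := by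
    intro i j hj
    have : j ≤ N := by unfold suc at hj; omega
    exact ⟨⟨N - j, by omega⟩, by show N - (N - j) = j; omega⟩
  induction φ with
  | pos n => intro i; exact Iff.rfl
  | neg n => intro i; exact Iff.rfl
  | bot => intro i; exact Iff.rfl
  | top => intro i; exact Iff.rfl
  | and a b iha ihb => intro i; exact and_congr (iha i) (ihb i)
  | or a b iha ihb => intro i; exact or_congr (iha i) (ihb i)
  | dia a ih =>
    intro i
    constructor
    · rintro ⟨j, hj, hs⟩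
      exact ⟨N - j.val, (hr i j).mp hj, (ih j).mp hs⟩
    · rintro ⟨j, hj, hs⟩
      obtain ⟨i', rfl⟩ := hsurj i j hj
      exact ⟨i', (hr i i').mpr hj, (ih i').mpr hs⟩
  | box a ih =>
    intro i
    constructor
    · intro hs j hj
      obtain ⟨i', rfl⟩ := hsurj i j hj
      exact (ih i').mp (hs i' ((hr i i').mpr hj))
    · intro hs j hj
      exact (ih j).mpr (hs (N - j.val) ((hr i j).mp hj))

theorem not_equiv (b : Bool) (r : ∀ N : ℕ, Fin (N + 1) → Fin (N + 1) → Prop)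
    (hr : ∀ (N : ℕ) (i j : Fin (N + 1)), r N i j ↔ suc b (N - i.val) (N - j.val)) (α : Fm)
    (hα : α.Positive {0}) (h : ∀ (N : ℕ) (V : ℕ → Fin (N + 1) → Prop) (x : Fin (N + 1)),
      Sat (r N) V x (phi.iff α)) : False := by
  let k := depth α + 1
  have h1 : ∀ c, Sat (suc b) (val c) (2 * k + 1) (phi.iff α) := by
    intro c
    have := (sat_fin b (2 * k + 1) c (r (2 * k + 1)) (hr _) (phi.iff α) 0).mp (h _ _ _)
    simpa using this
  have h2 : ∀ c, Sat (suc b) (val c) (2 * k + 1) phi ↔ Sat (suc b) (val c) (2 * k + 1) α := by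
    intro c
    obtain ⟨h3, h4⟩ := h1 c
    have h3' : Sat (suc b) (val c) (2 * k + 1) phi.not ∨ Sat (suc b) (val c) (2 * k + 1) α := h3
    have h4' : Sat (suc b) (val c) (2 * k + 1) α.not ∨ Sat (suc b) (val c) (2 * k + 1) phi := h4
    rw [sat_not] at h3' h4'
    exact ⟨fun hp => h3'.resolve_left (fun hn => hn hp),
      fun ha => h4'.resolve_left (fun hn => hn ha)⟩
  have h5 := (h2 (2 * k)).mp (phi_true b k)
  have h6 := preserve b α hα (2 * k) (2 * k + 1) (2 * (k - 1)) (2 * k + 1)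
    (Or.inr (Or.inr ⟨rfl, k, by omega, rfl, rfl, rfl⟩)) h5
  exact phi_false b k (by omega) ((h2 _).mpr h6)

theorem no_LPP {Λ : Set Fm} (h1 : K43 ⊆ Λ) (h2 : Λ ⊆ GL3 ∨ Λ ⊆ Grz3) : ¬ LPP Λ := by
  intro hL
  obtain ⟨α, _, hα, hΛ⟩ := hL {0} {1} (by decide) phi (by decide) (phi_monotone h1)
  rcases h2 with h2 | h2
  · refine not_equiv false (fun N => (· < ·)) ?_ α hα fun N V x => h2 hΛ (Fin (N + 1)) V x
    intro N i j
    unfold suc
    rw [Fin.lt_def]
    simp only [Bool.false_eq_true, false_and, or_false]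
    omega
  · refine not_equiv true (fun N => (· ≤ ·)) ?_ α hα fun N V x => h2 hΛ (Fin (N + 1)) V x
    intro N i j
    unfold suc
    rw [Fin.le_def]
    simp only [true_and]
    omega

theorem K43_GL3 : K43 ⊆ GL3 := by
  intro φ h X _ _ V x
  refine h X (· < ·) (fun _ _ _ h1 h2 => lt_trans h1 h2) (fun x y z _ _ => ?_) V x
  exact lt_trichotomy y z

theorem K43_Grz3 : K43 ⊆ Grz3 := by
  intro φ h X _ _ V x
  refine h X (· ≤ ·) (fun _ _ _ h1 h2 => le_trans h1 h2) (fun x y z _ _ => ?_) V x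
  rcases lt_trichotomy y z with h | h | h
  · exact Or.inl h.le
  · exact Or.inr (Or.inl h)
  · exact Or.inr (Or.inr h.le)

/-- Neither `GL.3` nor `Grz.3` has the Lyndon positivity property. More generally, no set of
formulas `Λ` (in particular, no normal modal logic) with `K4.3 ⊆ Λ ⊆ GL.3` or
`K4.3 ⊆ Λ ⊆ Grz.3` has it. -/
theorem result : ¬ LPP GL3 ∧ ¬ LPP Grz3 ∧
    ∀ Λ : Set Fm, K43 ⊆ Λ → (Λ ⊆ GL3 ∨ Λ ⊆ Grz3) → ¬ LPP Λ :=
  ⟨no_LPP K43_GL3 (Or.inl subset_rfl), no_LPP K43_Grz3 (Or.inr subset_rfl),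
    fun _ h1 h2 => no_LPP h1 h2⟩

end Pool.Agent.Results.MP_4f615a_lc.NoLyndonPositivity
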